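import Mathlib
import Pool.Agent.H.MP_1acbfe_co.A

set_option autoImplicit false

namespace Pool.Agent.H.MP_1acbfe_co.A
open Pool.Agent.Lib.helper1.Mask

theorem h2 : S = (List.range (2 ^ 13)).filter fun t => fac.any (sub t) := by
  decide +kernel

end Pool.Agent.H.MP_1acbfe_co.A
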